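import Pool.Agent.Helper97.NR.Defs

/-! # X1: hubs of `step n g` are far apart -/

set_option autoImplicit false

namespace Pool.Agent.Helper97.NR

open Sum

/-- X1: nodes far apart: two different hubs of `step n g` are at distance at least `R + 1`. -/
theorem hub_dist {n R : ℕ} {g : Gad} (h : Long g R) (a : Bool × Fin n) :
    ∃ f : Bool ⊕ StepV n g.V → ℕ, f (inr (inl a)) = 0 ∧
      (∀ b : Bool × Fin n, b ≠ a → f (inr (inl b)) = R + 1) ∧
      ∀ x y, (step n g).A.Adj x y → f y ≤ f x + 1 := by
  classical
  obtain ⟨pos, p0, p1, ple, plip⟩ := h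
  -- the value of `f` on the link `l`
  let F : Link n → ℕ → ℕ := fun l t =>
    if src l = inr a then t else if tgt l = inr a then R + 1 - t else R + 1
  let f : Bool ⊕ StepV n g.V → ℕ := fun x =>
    match x with
    | inl _ => R + 1
    | inr (inl b) => if b = a then 0 else R + 1
    | inr (inr (l, z)) => F l (pos (inr z))
  have hnd : ∀ x : Node n, f (nd x) = if x = inr a then 0 else R + 1 := by
    rintro (b | b)
    · simp [nd, f]
    · simp [nd, f]
  have hemb : ∀ (l : Link n) (u : Bool ⊕ g.V), f (emb l u) = F l (pos u) := by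
    rintro l ((_ | _) | z)
    · show f (nd (src l)) = _
      rw [hnd, p0]
      by_cases h1 : src l = inr a
      · simp [F, h1]
      · simp [F, h1]
    · show f (nd (tgt l)) = _
      rw [hnd, p1]
      by_cases h1 : src l = inr a
      · have h2 : tgt l ≠ inr a := fun h => src_ne_tgt l (h1.trans h.symm)
        simp [F, h1, h2]
      · by_cases h2 : tgt l = inr a
        · simp [F, h1, h2]
        · simp [F, h1, h2]
    · rfl
  refine ⟨f, by simp [f], fun b hb => by simp [f, hb], ?_⟩
  rintro x y ⟨l, u, v, huv, rfl, rfl⟩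
  rw [hemb, hemb]
  have e1 := plip _ _ huv
  have e2 := plip _ _ huv.symm
  have e3 := ple u
  have e4 := ple v
  simp only [F]
  split_ifs <;> omega

end Pool.Agent.Helper97.NR
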