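import Pool.Agent.Helper97.NR.Defs

/-! # L: the ends of the gadgets are far apart -/

set_option autoImplicit false

namespace Pool.Agent.Helper97.NR

open Sum

/-- L1 -/
theorem long_base : Long base 0 := by
  refine ⟨fun x => match x with
    | inl false => 0
    | inl true => 1
    | inr z => z.elim, rfl, rfl, ?_, ?_⟩
  · rintro ((_ | _) | z)
    · simp
    · simp
    · exact z.elim
  · rintro ((_ | _) | z) ((_ | _) | w) _ <;> first | exact z.elim | exact w.elim | simp

/-- L2 -/
theorem long_step {n R : ℕ} {g : Gad} (h : Long g R) : Long (step n g) (3 * R + 2) := by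
  classical
  obtain ⟨pos, p0, p1, ple, plip⟩ := h
  let N : Node n → ℕ := fun x =>
    match x with
    | inl false => 0
    | inl true => 3 * R + 3
    | inr (false, _) => R + 1
    | inr (true, _) => 2 * R + 2
  let f : Bool ⊕ StepV n g.V → ℕ := fun x =>
    match x with
    | inl b => N (inl b)
    | inr (inl b) => N (inr b)
    | inr (inr (l, z)) => N (src l) + pos (inr z)
  have hN : ∀ l : Link n, N (tgt l) = N (src l) + (R + 1) := by
    rintro (b | ab | a)
    · simp [N, src, tgt]
    · simp [N, src, tgt]; omega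
    · simp [N, src, tgt]; omega
  have hN2 : ∀ l : Link n, N (src l) ≤ 2 * R + 2 := by
    rintro (b | ab | a)
    · simp [N, src]
    · simp [N, src]; omega
    · simp [N, src]
  have hnd : ∀ x : Node n, f (nd x) = N x := by
    rintro (b | b) <;> rfl
  have hemb : ∀ (l : Link n) (u : Bool ⊕ g.V), f (emb l u) = N (src l) + pos u := by
    rintro l ((_ | _) | z)
    · show f (nd (src l)) = _
      rw [hnd, p0]; rfl
    · show f (nd (tgt l)) = _
      rw [hnd, p1, hN]
    · rfl
  refine ⟨f, rfl, rfl, ?_, ?_⟩
  · rintro ((_ | _) | (⟨_ | _, i⟩ | ⟨l, z⟩))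
    · simp [f, N]
    · simp [f, N]
    · simp [f, N]; omega
    · simp [f, N]; omega
    · have e1 := hN2 l
      have e2 := ple (inr z)
      simp only [f]; omega
  · rintro x y ⟨l, u, v, huv, rfl, rfl⟩
    rw [hemb, hemb]
    have e1 := plip _ _ huv
    omega

end Pool.Agent.Helper97.NR
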